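import Mathlib

namespace Pool.Agent.H.MP_39588e_an

open MvPowerSeries Finset Filter Topology IsNilpotent

abbrev F : Type := MvPowerSeries ℕ ℂ

structure Dr (D : F →ₗ[ℂ] F) : Prop where
  lb : ∀ x y, D (x * y) = x * D y + D x * y
  dv : ∀ x, X 0 ∣ D x
  x0 : D (X 0) = 0

variable {D : F →ₗ[ℂ] F}

lemma Dr.neg (h : Dr D) : Dr (-D) :=
  ⟨fun x y => by simp [h.lb, add_comm], fun x => (h.dv x).neg_right, by simp [h.x0]⟩

lemma Dr.xp (h : Dr D) (n : ℕ) (f : F) : D (X 0 ^ n * f) = X 0 ^ n * D f := by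
  induction n with
  | zero => simp
  | succ n ih => rw [pow_succ', mul_assoc, h.lb, ih, h.x0, zero_mul, add_zero, mul_assoc]

lemma Dr.pw (h : Dr D) (n : ℕ) (f : F) : X 0 ^ n ∣ (D ^ n) f := by
  induction n with
  | zero => simp
  | succ n ih =>
    obtain ⟨g, hg⟩ := ih
    rw [pow_succ' D, Module.End.mul_apply, hg, h.xp, _root_.pow_succ]
    exact mul_dvd_mul_left _ (h.dv g)

noncomputable def th (D : F →ₗ[ℂ] F) (f : F) : F :=
  fun r => coeff r (∑ k ∈ range (r 0 + 1), (k.factorial : ℚ)⁻¹ • (D ^ k) f)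

lemma co_th (f : F) (r : ℕ →₀ ℕ) :
    coeff r (th D f) = coeff r (∑ k ∈ range (r 0 + 1), (k.factorial : ℚ)⁻¹ • (D ^ k) f) := rfl

noncomputable abbrev I (N : ℕ) : Ideal F := Ideal.span {X 0 ^ N}

lemma ext_q {f g : F} (h : ∀ N, Ideal.Quotient.mk (I N) f = Ideal.Quotient.mk (I N) g) : f = g := by
  ext r
  have := X_pow_dvd_iff.1 (Ideal.mem_span_singleton.1 (Ideal.Quotient.eq.1 (h (r 0 + 1)))) r
    (Nat.lt_succ_self _)
  rwa [map_sub, sub_eq_zero] at this

lemma Dr.q (h : Dr D) (N : ℕ) : ∃ E : (F ⧸ I N) →ₗ[ℂ] (F ⧸ I N),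
    (∀ f, E (Ideal.Quotient.mk (I N) f) = Ideal.Quotient.mk (I N) (D f)) := by
  refine ⟨((I N).restrictScalars ℂ).mapQ ((I N).restrictScalars ℂ) D fun f hf => ?_, fun f => rfl⟩
  obtain ⟨g, rfl⟩ := Ideal.mem_span_singleton.1 hf
  exact Ideal.mem_span_singleton.2 ⟨_, h.xp N g⟩

lemma Dr.mq (h : Dr D) {N : ℕ} {E : (F ⧸ I N) →ₗ[ℂ] (F ⧸ I N)}
    (e : ∀ f, E (Ideal.Quotient.mk (I N) f) = Ideal.Quotient.mk (I N) (D f)) :
    IsNilpotent E ∧ ∀ f, Ideal.Quotient.mk (I N) (th D f) = exp E (Ideal.Quotient.mk (I N) f) := by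
  have a : ∀ k f, (E ^ k) (Ideal.Quotient.mk (I N) f) = Ideal.Quotient.mk (I N) ((D ^ k) f) := by
    intro k f
    induction k with
    | zero => rfl
    | succ k ih => rw [pow_succ', pow_succ', Module.End.mul_apply, ih, e]; rfl
  have b : E ^ N = 0 := LinearMap.ext fun x => by
    obtain ⟨f, rfl⟩ := Ideal.Quotient.mk_surjective x
    rw [a]
    exact Ideal.Quotient.eq_zero_iff_mem.2 (Ideal.mem_span_singleton.2 (h.pw N f))
  refine ⟨⟨N, b⟩, fun f => ?_⟩
  rw [exp_eq_sum b, LinearMap.sum_apply]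
  simp only [LinearMap.smul_apply, a, ← map_rat_smul (Ideal.Quotient.mk (I N)), ← map_sum]
  refine Ideal.Quotient.eq.2 (Ideal.mem_span_singleton.2 (X_pow_dvd_iff.2 fun r hr => ?_))
  rw [map_sub, co_th, ← sum_range_add_sum_Ico _ (Nat.succ_le_of_lt hr), map_add, sub_add_cancel_left,
    neg_eq_zero, map_sum]
  refine sum_eq_zero fun k hk => ?_
  rw [map_rat_smul, X_pow_dvd_iff.1 (h.pw k f) r (mem_Ico.1 hk).1, smul_zero]

lemma Dr.mul (h : Dr D) (f g : F) : th D (f * g) = th D f * th D g := ext_q fun N => by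
  obtain ⟨E, e⟩ := h.q N
  obtain ⟨a, b⟩ := h.mq e
  rw [map_mul, b, b, b, map_mul]
  refine Module.End.exp_mul_of_derivation ℂ _ E (fun x y => ?_) a _ _
  obtain ⟨f, rfl⟩ := Ideal.Quotient.mk_surjective x
  obtain ⟨g, rfl⟩ := Ideal.Quotient.mk_surjective y
  rw [← map_mul, e, e, e, h.lb, map_add, map_mul, map_mul]

lemma Dr.inv (h : Dr D) (f : F) : th (-D) (th D f) = f := ext_q fun N => by
  obtain ⟨E, e⟩ := h.q N
  obtain ⟨a, b⟩ := h.mq e
  rw [(h.neg.mq (E := -E) fun f => by simp [e]).2, b, ← Module.End.mul_apply,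
    exp_neg_mul_exp_self a]
  rfl

noncomputable def thl (D : F →ₗ[ℂ] F) : F →ₗ[ℂ] F where
  toFun := th D
  map_add' f g := by ext r; simp [co_th, sum_add_distrib]
  map_smul' c f := by
    ext r
    simp only [co_th, map_smul, map_sum, RingHom.id_apply, smul_sum, map_rat_smul, smul_comm c]

lemma ex_D : ∃ D, Dr D ∧ ∀ n, 0 < n → D (X n) = X 0 := by
  classical
  obtain ⟨g, hg⟩ := (Finsupp.lcoeFun : (ℕ →₀ ℂ) →ₗ[ℂ] ℕ → ℂ).exists_leftInverse_of_injective
    (LinearMap.ker_eq_bot.2 DFunLike.coe_injective)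
  let ψ := Finsupp.linearCombination ℂ (fun n : ℕ => if n = 0 then (0 : ℂ) else 1) ∘ₗ g
  let d : F →ₗ[ℂ] F :=
    { toFun f r := ψ fun i => coeff r (pderiv ℂ i f)
      map_add' f f' := funext fun r => (congrArg ψ (by ext; simp)).trans (map_add ψ _ _)
      map_smul' c f := funext fun r => (congrArg ψ (by ext; simp)).trans (map_smul ψ _ _) }
  have cd : ∀ f r, coeff r (d f) = ψ fun i => coeff r (pderiv ℂ i f) := fun _ _ => rfl
  have m : ∀ (f : F) (u : ℕ → F) (v : F), (∀ r, coeff r v = ψ fun i => coeff r (u i)) →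
      ∀ r, coeff r (f * v) = ψ fun i => coeff r (f * u i) := fun f u v h r => by
    have : (fun i => coeff r (f * u i)) =
        ∑ q ∈ antidiagonal r, coeff q.1 f • fun i => coeff q.2 (u i) := by
      ext; simp [coeff_mul]
    rw [this]
    simp only [map_sum, map_smul, coeff_mul, h, smul_eq_mul]
  have dx : ∀ n, d (X n) = if n = 0 then 0 else 1 := fun n => by
    have e : ψ (Pi.single n 1) = if n = 0 then 0 else 1 := by
      have := LinearMap.congr_fun hg (Finsupp.single n 1)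
      simp only [LinearMap.comp_apply, Finsupp.lcoeFun_apply, Finsupp.single_eq_pi_single] at this
      simp [ψ, this]
    ext r
    have : (fun i => coeff r (pderiv ℂ i (X n : F))) = coeff r (1 : F) • Pi.single n (1 : ℂ) := by
      ext i
      by_cases c : i = n
      · simp [c]
      · simp [pderiv_X_of_ne (Ne.symm c), c]
    rw [cd, this, map_smul, e]
    split_ifs <;> simp
  refine ⟨LinearMap.mulLeft ℂ (X 0) ∘ₗ d, ⟨fun x y => ?_, fun x => Dvd.intro _ rfl, by simp [dx]⟩,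
    fun n hn => by simp [dx, hn.ne']⟩
  have : d (x * y) = x * d y + y * d x := by
    ext r
    rw [map_add, m x _ _ (cd y), m y _ _ (cd x), ← map_add, cd]
    congr 1; ext; simp [Derivation.leibniz]
  simp only [LinearMap.comp_apply, LinearMap.mulLeft_apply, this]
  ring

/-- the lower sets of exponents -/
def L (m : ℕ) : Set (ℕ →₀ ℕ) := {r | (∀ i, r i ≤ if i < m then m else 0) ∨ ∀ i ≠ 1, r i = 0}

noncomputable def a (m : ℕ) (f : F) : (ℕ →₀ ℕ) → ℝ := (L m).indicator fun r => ‖coeff r f‖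

lemma a0 (m : ℕ) (f : F) (r : ℕ →₀ ℕ) : 0 ≤ a m f r := Set.indicator_nonneg (by simp) r

lemma a_add (m : ℕ) (f g : F) (r : ℕ →₀ ℕ) : a m (f + g) r ≤ a m f r + a m g r := by
  by_cases c : r ∈ L m <;> simp [a, c, norm_add_le]

lemma a_smul (m : ℕ) (c : ℂ) (f : F) (r : ℕ →₀ ℕ) : a m (c • f) r = ‖c‖ * a m f r := by
  by_cases c : r ∈ L m <;> simp [a, c]

lemma a_mul (m : ℕ) (f g : F) (r : ℕ →₀ ℕ) :
    a m (f * g) r ≤ ∑ p ∈ antidiagonal r, a m f p.1 * a m g p.2 := by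
  classical
  by_cases c : r ∈ L m
  · have l : ∀ s ≤ r, s ∈ L m := fun s hs => Or.imp (fun h i => (hs i).trans (h i))
      (fun h i hi => Nat.le_zero.1 ((hs i).trans (h i hi).le)) c
    rw [a, Set.indicator_of_mem c, coeff_mul]
    refine (norm_sum_le _ _).trans (sum_le_sum fun p hp => ?_)
    rw [HasAntidiagonal.mem_antidiagonal] at hp
    rw [a, a, Set.indicator_of_mem (l _ (hp ▸ le_self_add)),
      Set.indicator_of_mem (l _ (hp ▸ le_add_self)), norm_mul]
  · rw [a, Set.indicator_of_notMem c]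
    exact sum_nonneg fun p _ => mul_nonneg (a0 _ _ _) (a0 _ _ _)

lemma s_mon (m : ℕ) (r : ℕ →₀ ℕ) (c : ℂ) : Summable (a m (monomial r c)) := by
  classical
  refine summable_of_ne_finset_zero (s := {r}) fun s hs => ?_
  by_cases q : s ∈ L m <;> simp [a, q, coeff_monomial_ne (by simpa using hs : s ≠ r)]

noncomputable def A : Subalgebra ℂ F where
  carrier := {f | ∀ m, Summable (a m f)}
  mul_mem' hf hg m := .of_nonneg_of_le (a0 m _) (a_mul m _ _)
    (summable_sum_mul_antidiagonal_of_summable_mul ((hf m).mul_of_nonneg (hg m) (a0 m _) (a0 m _)))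
  add_mem' hf hg m := .of_nonneg_of_le (a0 m _) (a_add m _ _) ((hf m).add (hg m))
  algebraMap_mem' c m := s_mon m 0 c

noncomputable def p (m : ℕ) : Seminorm ℂ A := Seminorm.of (fun f => ∑' r, a m f r)
  (fun f g => (((f + g).2 m).tsum_le_tsum (a_add m _ _) ((f.2 m).add (g.2 m))).trans_eq
    ((f.2 m).tsum_add (g.2 m)))
  fun c f => by simp only [Subalgebra.coe_smul, a_smul, tsum_mul_left]

lemma L_mono : Monotone L := fun m n h r hr => hr.imp_left fun q i => (q i).trans (by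
  split_ifs <;> omega)

lemma L_ex (r : ℕ →₀ ℕ) : ∃ m, r ∈ L m := by
  refine ⟨r.support.sup (fun i => i + r i) + 1, Or.inl fun i => ?_⟩
  by_cases c : i ∈ r.support
  · have := le_sup (f := fun i => i + r i) c
    split_ifs <;> omega
  · simp [Finsupp.notMem_support_iff.1 c]

lemma p_mono : Monotone p := fun m n h f => (f.2 m).tsum_le_tsum
  (Set.indicator_le_indicator_of_subset (L_mono h) fun _ => norm_nonneg _) (f.2 n)

lemma p_mul (m : ℕ) (f g : A) : p m (f * g) ≤ p m f * p m g := by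
  have s := (f.2 m).mul_of_nonneg (g.2 m) (a0 m _) (a0 m _)
  exact (((f * g).2 m).tsum_le_tsum (a_mul m _ _)
    (summable_sum_mul_antidiagonal_of_summable_mul s)).trans_eq
      ((f.2 m).tsum_mul_tsum_eq_tsum_sum_antidiagonal (g.2 m) s).symm

lemma p_co {m : ℕ} {r : ℕ →₀ ℕ} (h : r ∈ L m) (f : A) : ‖coeff r f.1‖ ≤ p m f :=
  (Set.indicator_of_mem h _).ge.trans ((f.2 m).le_tsum r fun s _ => a0 m _ s)

lemma p_cpl (u : ℕ → A) (h : ∀ m, ∀ ε > 0, ∃ N, ∀ i ≥ N, ∀ j ≥ N, p m (u i - u j) < ε) :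
    ∃ f : A, ∀ m, Tendsto (fun n => p m (u n - f)) atTop (𝓝 0) := by
  have : ∀ r, ∃ z, Tendsto (fun n => coeff r (u n).1) atTop (𝓝 z) := fun r => by
    obtain ⟨m, hm⟩ := L_ex r
    refine cauchySeq_tendsto_of_complete (Metric.cauchySeq_iff.2 fun ε ε0 => (h m ε ε0).imp
      fun N hN i hi j hj => ?_)
    rw [dist_eq_norm, ← map_sub]
    exact (p_co hm (u i - u j)).trans_lt (hN i hi j hj)
  obtain ⟨f, hf⟩ : ∃ f : F, ∀ r, Tendsto (fun n => coeff r (u n).1) atTop (𝓝 (coeff r f)) := by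
    choose f hf using this
    exact ⟨f, hf⟩
  have b : ∀ m, ∀ ε > 0, ∃ N, ∀ i ≥ N, ∀ s : Finset _, ∑ r ∈ s, a m ((u i).1 - f) r ≤ ε :=
    fun m ε ε0 => (h m ε ε0).imp fun N hN i hi s => by
      refine le_of_tendsto (f := fun j => ∑ r ∈ s, a m (u i - u j).1 r)
        (tendsto_finsetSum _ fun r _ => ?_) ((eventually_ge_atTop N).mono fun j hj =>
          (((u i - u j).2 m).sum_le_tsum s fun r _ => a0 m _ r).trans (hN i hi j hj).le)
      by_cases c : r ∈ L m
      · simpa [a, c] using ((hf r).const_sub _).norm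
      · simp [a, c]
  refine ⟨⟨f, fun m => ?_⟩, fun m => Metric.tendsto_atTop.2 fun ε ε0 => ?_⟩
  · obtain ⟨N, hN⟩ := b m 1 one_pos
    refine .of_nonneg_of_le (a0 m _) (fun r => ?_) (((u N).2 m).add
      (summable_of_sum_le (a0 m _) (hN N le_rfl)))
    have := a_add m (u N).1 ((-1 : ℂ) • ((u N).1 - f)) r
    rw [a_smul] at this
    simpa using this
  · refine (b m _ (half_pos ε0)).imp fun N hN i hi => ?_
    rw [Real.dist_0_eq_abs, abs_of_nonneg (apply_nonneg _ _)]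
    exact (Real.tsum_le_of_sum_le (a0 m _) (hN i hi)).trans_lt (half_lt_self ε0)

lemma th_mem (f : F) (hf : f ∈ A) : th D f ∈ A := fun m => by
  have : {r : ℕ →₀ ℕ | ∀ i, r i ≤ if i < m then m else 0}.Finite :=
    (Set.finite_Iic (Finsupp.onFinset (range m) (fun i => if i < m then m else 0)
      (by simp +contextual))).subset fun r hr => hr
  refine ((hf m).congr_cofinite (this.subset fun r hr => ?_))
  by_contra c
  refine hr ?_
  by_cases q : r ∈ L m
  · simp [a, q, co_th, q.resolve_left c 0 zero_ne_one]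
  · simp [a, q]

lemma A_ne : A ≠ ⊤ := fun h => by
  obtain ⟨f, hf⟩ : ∃ f : F, ∀ r, coeff r f = 1 := ⟨fun _ => 1, fun _ => rfl⟩
  have : f ∈ A := h ▸ Algebra.mem_top
  have := (this 0).comp_injective (Finsupp.single_injective (1 : ℕ))
  have e : a 0 f ∘ Finsupp.single 1 = fun _ : ℕ => 1 := funext fun n => by
    have : Finsupp.single 1 n ∈ L 0 := Or.inr fun i hi => Finsupp.single_eq_of_ne hi
    simp [a, this, hf]
  rw [e] at this
  exact one_ne_zero ((summable_const_iff _).1 this)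

end Pool.Agent.H.MP_39588e_an
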